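import Pool.Agent.X228.Ontology

/-!
# MP_36ff06_lc: `L1` embeds in Grzegorczyk's logic

`F(x, y) = ¬x ∧ ((¬y ∧ □(x ↔ y)) ∨ (y ∧ ◇(x ∧ y)))` embeds `L1` in `Grz`, and in every normal
modal logic contained in `Grz`.
-/

set_option autoImplicit false

namespace Pool.Agent.Results.MP_36ff06_lc.GrzEmbedding

open Pool.Agent.X228.Ontology

/-- There is a modal formula `F(x, y)` such that `t_F` embeds `L1` in `Grz` (and in every normal
modal logic contained in `Grz`), whatever the injective assignment `pv : a ↦ p_a` is. -/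
theorem result : ∃ F : MForm (Fin 2), ∀ pv : ℕ → ℕ, Function.Injective pv →
    (∀ φ : LForm, L1 φ ↔ trans F pv φ ∈ Grz) ∧
    ∀ Λ : Set (MForm ℕ), IsNormal Λ → Λ ⊆ Grz → ∀ φ : LForm, L1 φ ↔ trans F pv φ ∈ Λ := by
  refine ⟨F0, fun pv hpv => ⟨embeds (smallestNormal_isNormal _) Grz_subset hpv, ?_⟩⟩
  intro Λ hΛ hsub
  exact embeds hΛ (hsub.trans Grz_subset) hpv

end Pool.Agent.Results.MP_36ff06_lc.GrzEmbedding
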